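import Pool.Agent.N661.JM.All

/-!
# Joint moments up to order four of several Maass forms (MP_a28cf0_nt)

`HP` is the upper half plane `im z > 0` with the area measure `dμ = dx dy / y²`, and
`y² Δu + λ u = 0` is the equation of an eigenfunction of the hyperbolic Laplacian. For
Hecke-Maass forms `λ = 1/4 + t²`, `Ω` is for instance the interior of a fundamental domain, and the
hypothesis `IsQuantumErgodic` is the theorem of quantum unique ergodicity for a single form. The
definitions `MW`, `cov`, `parallel` are in `Pool.Agent.N661.BR.Defs`, `HP`, `IsQuantumErgodic`, `loc`,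
`frames` in `Pool.Agent.N661.BH.Stm`, and `JointLaws`, `JointValueLaw`, `IsStationaryI`,
`IsErgodicI`, `Mom` in `Pool.Agent.N661.JM.Defs`.

Let `u_i`, `i < d`, be `d` sequences of eigenfunctions, each of them quantum ergodic over `Ω`. Seen at
the scale of the wavelength, in a random orthonormal frame at a random point of `Ω`, the `d`-tuple has
(along a subsequence) a limit law `μ` on the space of the `d`-tuples of solutions of `Δf + f = 0`. If
the ratios of the eigenvalues tend to `1`, `μ` is invariant under simultaneous translations; let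
`μ = ∫ κ_s dP(s)` be its decomposition into ergodic laws, and let `m_i(s) cov ν_i(s)` be the covariance
of the component `f_i` of `κ_s`. Suppose that no mass is lost at the scale of the wavelength
(`E f_i(0)² = 1`) and that there are no plane waves (`m_i(s)² parallel ν_i(s) = 0` almost surely).

The theorem: the joint laws of the values `(u_i(z))_i` converge weakly to a law `ρ` with finite fourth
moments. Let `c_ij(s) = E_s f_i(0) f_j(0)` be the local correlation of `u_i` and `u_j`, `c_ii = 1`. All
moments of `ρ` of total degree at most four are the averages over `s` of the moments of the Gaussian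
vector with covariance matrix `c(s)`: the first and third moments vanish, and
`∫ x_i x_j x_k x_l dρ = ∫ (c_ij c_kl + c_ik c_jl + c_il c_jk) dP`. In particular
`∫ x_i² x_j² dρ = 1 + 2 ∫ c_ij² dP ≥ 1`, and these moments have the value `1` of the conjecture for all
`i ≠ j` if and only if there is no local correlation, `c_ij = 0` almost surely; in this case all the
moments of total degree at most four are those of `d` independent standard normal variables. This
includes the case that `μ` is ergodic and `E f_i(0) f_j(0) = 0` for `i ≠ j` (the forms are orthogonal in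
the limit). No bound of a moment of the `u_i` is assumed.

Proof idea. By the theorem for one form (`ErgodicLimits` of MP_4fa179_mp, whose main ingredient is the
compensated compactness of quartic expressions) almost every component has the second, third and
fourth moments of the random wave. Linear combinations of the `f_i` are ergodic monochromatic waves
without plane waves, with finite fourth moments, so that their fourth moment is three times the square
of their second moment and their third moment is zero; then the moments are polarised.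

The parts of the proof are due to helpers 40, 87, 130, 136, 141, 163, 232, 273, 278, 344, 401, 426, 438,
488, 507, 511, 645, 661, 717, 738, 814, 868, 878, 901, 916 and 953.
-/

set_option autoImplicit false
open MeasureTheory Filter Topology ProbabilityTheory
open scoped ContDiff ENNReal

namespace Pool.Agent.Results.MP_a28cf0_nt.JointValueMoments

open Pool.Agent.W745.RW (lap)
open Pool.Agent.N661.BR (MW cov parallel)
open Pool.Agent.N661.BH (HP IsQuantumErgodic)
open Pool.Agent.N661.JM (JointLaws JointValueLaw IsStationaryI IsErgodicI Mom)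

/-- **Result.** Let `Ω ⊆ HP` be a nonempty open set of finite hyperbolic area and let `u i n`,
`i < d`, be real eigenfunctions of the hyperbolic Laplacian, `y² Δu + λ_i,n u = 0` on `HP`,
`λ_i,n → ∞`, which are quantum ergodic in the unit cotangent bundle over `Ω`, and whose joint local
laws over `Ω` converge to `μ`. Let `μ = ∫ κ_s dP(s)`, where almost every `κ_s` is invariant and ergodic
under simultaneous translations, and its components have the covariances `m_i(s) cov ν_i(s)`. If
`E f_i(0)² = 1` and `m_i(s)² parallel ν_i(s) = 0` almost surely, then the values `(u i n z)_i` at a random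
point `z` of `Ω` converge in law to a law `ρ` whose moments up to order four are those of a Gaussian
vector with the random covariance matrix `c_ij(s) = E_s f_i(0) f_j(0)`; `c_ii = 1`. The moments
`∫ x_i² x_j² dρ`, `i ≠ j`, are all equal to `1` if and only if `c_ij = 0` almost surely for `i ≠ j`, and
then all moments of degree at most four are those of independent standard normal variables. -/
theorem result (d : ℕ) (hd : 0 < d) (Ω : Set ℂ) (hΩ : IsOpen Ω) (hHP : Ω ⊆ HP)
    (hne : Ω.Nonempty) (hA : IntegrableOn (fun z : ℂ => 1 / z.im ^ 2) Ω)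
    (lam : Fin d → ℕ → ℝ) (hpos : ∀ i n, 0 < lam i n) (hlam : ∀ i, Tendsto (lam i) atTop atTop)
    (u : Fin d → ℕ → ℂ → ℝ) (hu : ∀ i n, ContDiffOn ℝ ∞ (u i n) HP)
    (heq : ∀ i n, ∀ z ∈ HP, z.im ^ 2 * lap (u i n) z + lam i n * u i n z = 0)
    (hqe : ∀ i, IsQuantumErgodic Ω (lam i) (u i))
    (μ : Measure (Fin d → MW)) [IsProbabilityMeasure μ] (hμ : JointLaws Ω lam u μ)
    {S : Type*} [MeasurableSpace S] (P : Measure S) [IsProbabilityMeasure P]
    (κ : Kernel S (Fin d → MW)) [IsMarkovKernel κ] (hκ : P.bind κ = μ)
    (herg : ∀ᵐ s ∂P, IsStationaryI (κ s) ∧ IsErgodicI (κ s))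
    (m : Fin d → S → ℝ) (ν : Fin d → Kernel S ℝ) [∀ i, IsMarkovKernel (ν i)]
    (hν : ∀ i, ∀ᵐ s ∂P, ∀ w w' : ℂ, ∫ f, f i w * f i w' ∂(κ s) = m i s * cov (ν i s) (w - w'))
    (hvar : ∀ i, ∫ f, f i 0 ^ 2 ∂μ = 1) (hp : ∀ i, ∀ᵐ s ∂P, m i s ^ 2 * parallel (ν i s) = 0) :
    ∃ ρ : Measure (Fin d → ℝ), IsProbabilityMeasure ρ ∧ JointValueLaw Ω u ρ ∧
      Mom ρ P (fun i x => x i) (fun i j s => ∫ f, f i 0 * f j 0 ∂(κ s)) ∧
      (∀ i, ∀ᵐ s ∂P, ∫ f, f i 0 * f i 0 ∂(κ s) = 1) ∧
      ((∀ i j, i ≠ j → ∫ x, x i ^ 2 * x j ^ 2 ∂ρ = 1) ↔
        ∀ i j, i ≠ j → ∀ᵐ s ∂P, ∫ f, f i 0 * f j 0 ∂(κ s) = 0) ∧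
      ((∀ i j, i ≠ j → ∀ᵐ s ∂P, ∫ f, f i 0 * f j 0 ∂(κ s) = 0) → ∀ i j k l,
        ∫ x, x i * x j * x k * x l ∂ρ =
          (if i = j ∧ k = l then 1 else 0) + (if i = k ∧ j = l then 1 else 0) +
            (if i = l ∧ j = k then 1 else 0)) :=
  Pool.Agent.N661.JM.joint' hd
    (fun i => ⟨hΩ, hHP, hne, hA, hpos i, hlam i, hu i, heq i, hqe i⟩) hμ hκ herg m ν hν hvar hp

end Pool.Agent.Results.MP_a28cf0_nt.JointValueMoments
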